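import Mathlib

set_option autoImplicit false

namespace Pool.Agent.H.MP_7e9539_an

open Set

variable {E R : Type} [NormedAddCommGroup E] [NormedSpace ℝ E] [NormedRing R] [NormedAlgebra ℂ R]

/-- abstract data -/
structure Dat (E R : Type) [NormedAddCommGroup E] [NormedSpace ℝ E] [NormedRing R]
    [NormedAlgebra ℂ R] where
  T : E →L[ℝ] R
  S : E →L[ℝ] R
  t : E → E → E → E
  TT : ∀ x y, T x * T y = 0
  SS : ∀ x y, S x * S y = 0
  TST : ∀ x y z, T x * S y * T z = T (t x y z)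
  STS : ∀ x y z, S x * T y * S z = S (t z y x)

variable (D : Dat E R)

/-- one-letter words -/
def Dat.W (F : Set E) : Set R := {k | k = 0 ∨ ∃ x ∈ F, k = D.T x ∨ k = D.S x}

/-- generators -/
def Dat.G (F : Set E) : Set R :=
  {k | ∃ x ∈ F, ∃ y ∈ F, k = D.T x ∨ k = D.S x ∨ k = D.S x * D.T y ∨ k = D.T x * D.S y}

/-- closed span -/
noncomputable def Dat.L (F : Set E) : Submodule ℂ R := (Submodule.span ℂ (D.G F)).topologicalClosure

variable {D} {F : Set E}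

theorem gen {k : R} (h : k ∈ D.G F) : k ∈ D.W F ∨ ∃ a ∈ D.W F, ∃ b ∈ D.W F, k = a * b := by
  obtain ⟨x, hx, y, hy, h | h | h | h⟩ := h
  · exact .inl (.inr ⟨x, hx, .inl h⟩)
  · exact .inl (.inr ⟨x, hx, .inr h⟩)
  · exact .inr ⟨_, .inr ⟨x, hx, .inr rfl⟩, _, .inr ⟨y, hy, .inl rfl⟩, h⟩
  · exact .inr ⟨_, .inr ⟨x, hx, .inl rfl⟩, _, .inr ⟨y, hy, .inr rfl⟩, h⟩

theorem gH {k : R} (h : k ∈ D.G F) : k ∈ D.L F := subset_closure (Submodule.subset_span h)

theorem w1 {a : R} (h : a ∈ D.W F) : a ∈ D.L F := by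
  rcases h with rfl | ⟨x, hx, rfl | rfl⟩
  exacts [zero_mem _, gH ⟨x, hx, x, hx, .inl rfl⟩, gH ⟨x, hx, x, hx, .inr (.inl rfl)⟩]

theorem w2 {a b : R} (h : a ∈ D.W F) (k : b ∈ D.W F) : a * b ∈ D.L F := by
  rcases h with rfl | ⟨x, hx, rfl | rfl⟩ <;> rcases k with rfl | ⟨y, hy, rfl | rfl⟩ <;>
    try simp only [zero_mul, mul_zero, D.TT, D.SS, zero_mem]
  · exact gH ⟨x, hx, y, hy, .inr (.inr (.inr rfl))⟩
  · exact gH ⟨x, hx, y, hy, .inr (.inr (.inl rfl))⟩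

theorem w3 {G : Set E} (hF : ∀ x ∈ F, ∀ y ∈ G, ∀ z ∈ F, D.t x y z ∈ F)
    {a b c : R} (h : a ∈ D.W F) (k : b ∈ D.W G) (l : c ∈ D.W F) : a * b * c ∈ D.W F := by
  rcases h with rfl | ⟨x, hx, rfl | rfl⟩
  · exact .inl (by simp)
  · rcases k with rfl | ⟨y, hy, rfl | rfl⟩
    · exact .inl (by simp)
    · exact .inl (by simp [D.TT])
    · rcases l with rfl | ⟨z, hz, rfl | rfl⟩
      · exact .inl (by simp)
      · exact .inr ⟨_, hF x hx y hy z hz, .inl (D.TST _ _ _)⟩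
      · exact .inl (by simp [mul_assoc, D.SS])
  · rcases k with rfl | ⟨y, hy, rfl | rfl⟩
    · exact .inl (by simp)
    · rcases l with rfl | ⟨z, hz, rfl | rfl⟩
      · exact .inl (by simp)
      · exact .inl (by simp [mul_assoc, D.TT])
      · exact .inr ⟨_, hF z hz y hy x hx, .inr (D.STS _ _ _)⟩
    · exact .inl (by simp [D.SS])

theorem ind {N : Submodule ℂ R} (hN : IsClosed (N : Set R)) (φ : R →L[ℂ] R)
    (h : ∀ k ∈ D.G F, φ k ∈ N) : ∀ k ∈ D.L F, φ k ∈ N :=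
  Submodule.topologicalClosure_minimal _ (t := N.comap φ.toLinearMap) (Submodule.span_le.2 h)
    (hN.preimage φ.continuous)

theorem hered (hF : ∀ x ∈ F, ∀ y, ∀ z ∈ F, D.t x y z ∈ F)
    (dens : ∀ (N : Submodule ℝ R), IsClosed (N : Set R) → ∀ φ : E →L[ℝ] R,
      (∀ x ∈ F, ∀ y ∈ F, φ (D.t x y y) ∈ N) → ∀ x ∈ F, φ x ∈ N) :
    ∀ a ∈ D.L F, ∀ b ∈ D.L univ, ∀ c ∈ D.L F, a * b * c ∈ D.L F := by
  have cl : IsClosed (D.L F : Set R) := isClosed_closure
  have k : ∀ {a b c}, a ∈ D.W F → b ∈ D.W univ → c ∈ D.W F → a * b * c ∈ D.W F :=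
    w3 fun x hx y _ z hz => hF x hx y z hz
  have u : ∀ {a b c}, a ∈ D.W univ → b ∈ D.W univ → c ∈ D.W univ → a * b * c ∈ D.W univ :=
    w3 fun _ _ _ _ _ _ => mem_univ _
  have i : ∀ {a}, a ∈ D.W F → a ∈ D.W univ := fun h => h.imp_right fun ⟨x, _, h⟩ => ⟨x, trivial, h⟩
  intro a ha b hb c hc
  refine ind cl (ContinuousLinearMap.mul ℂ R (a * b)) (fun c hc => ?_) c hc
  refine ind cl (((ContinuousLinearMap.mul ℂ R).flip c).comp (ContinuousLinearMap.mul ℂ R a))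
    (fun b hb => ?_) b hb
  refine ind cl (((ContinuousLinearMap.mul ℂ R).flip c).comp ((ContinuousLinearMap.mul ℂ R).flip b))
    (fun a ha => ?_) a ha
  show a * b * c ∈ _
  replace ha := gen ha
  replace hb := gen hb
  replace hc := gen hc
  rcases ha with ha | ⟨a, ha, a', ha', rfl⟩ <;> rcases hb with hb | ⟨b, hb, b', hb', rfl⟩ <;>
    rcases hc with hc | ⟨c, hc, c', hc', rfl⟩
  · exact w1 (k ha hb hc)
  · simpa only [mul_assoc] using w2 (k ha hb hc) hc'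
  · have m : ∀ {p q r}, p ∈ D.W F → q ∈ D.W F → r ∈ D.W F →
        p * q * r * (b * b' * c) ∈ D.L F := fun hp hq hr => by
      simpa only [mul_assoc] using w2 hp (k hq (u (i hr) hb hb') hc)
    let ψ := ((ContinuousLinearMap.mul ℂ R).flip (b * b' * c)).restrictScalars ℝ
    rw [mul_assoc]
    rcases ha with rfl | ⟨x, hx, rfl | rfl⟩
    · simp
    · exact dens ((D.L F).restrictScalars ℝ) cl (ψ.comp D.T) (fun x hx y hy => by
          have := m (.inr ⟨x, hx, .inl rfl⟩) (.inr ⟨y, hy, .inr rfl⟩) (.inr ⟨y, hy, .inl rfl⟩)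
          rwa [D.TST] at this) x hx
    · exact dens ((D.L F).restrictScalars ℝ) cl (ψ.comp D.S) (fun x hx y hy => by
          have := m (.inr ⟨y, hy, .inr rfl⟩) (.inr ⟨y, hy, .inl rfl⟩) (.inr ⟨x, hx, .inr rfl⟩)
          rwa [D.STS] at this) x hx
  · simpa only [mul_assoc] using w1 (k ha (u hb hb' (i hc)) hc')
  · simpa only [mul_assoc] using w2 ha (k ha' hb hc)
  · simpa only [mul_assoc] using w1 (k ha (u (i ha') hb (i hc)) hc')
  · simpa only [mul_assoc] using w1 (k ha (u (i ha') hb hb') hc)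
  · simpa only [mul_assoc] using w2 ha (k ha' (u hb hb' (i hc)) hc')

end Pool.Agent.H.MP_7e9539_an
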