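import Mathlib
import Pool.Agent.H.MP_7e9539_an.Abs

set_option autoImplicit false

namespace Pool.Agent.H.MP_7e9539_an

open CStarModule WithCStarModule Set Filter Topology
open scoped InnerProductSpace

variable (A : Type) {E : Type} [NonUnitalCStarAlgebra A] [PartialOrder A] [StarOrderedRing A]
  [SMul A E] [NormedAddCommGroup E] [NormedSpace ℂ E] [CStarModule A E]

/-- the four kinds of generators of the linking algebra, as maps of pairs -/
def Gen (F : Set E) (k : A × E → A × E) : Prop := ∃ x ∈ F, ∃ y ∈ F,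
  (∀ v, k v = (0, v.1 • x)) ∨ (∀ v, k v = (inner A x v.2, 0)) ∨
  (∀ v, k v = (v.1 * inner A x y, 0)) ∨ ∀ v, k v = (0, inner A y v.2 • x)

/-- bounded operators -/
abbrev Op (M : Type) [NormedAddCommGroup M] [NormedSpace ℂ M] := M →L[ℂ] M

/-- closed span of the bounded operators whose underlying map lies in a given class -/
def CSpan {M : Type} [NormedAddCommGroup M] [NormedSpace ℂ M] (G : (M → M) → Prop) :
    Set (Op M) := closure (Submodule.span ℂ {k : Op M | G k})

/-- the module on which the linking algebra acts -/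
abbrev Sum (E : Type) := WithCStarModule A (A × E)

/-- the reduced linking algebra -/
def Link (F : Set E) := CSpan (M := Sum A E) (Gen A F)

variable {A}

omit [StarOrderedRing A] in
theorem ext_inner {x y : E} (h : ∀ z, ⟪z, x⟫_A = ⟪z, y⟫_A) : x = y :=
  sub_eq_zero.1 (inner_self (A := A).1 (by rw [CStarModule.inner_sub_right, h, sub_self]))

omit [StarOrderedRing A] in
theorem mul_sm (a b : A) (x : E) : (a * b) • x = a • b • x :=
  ext_inner (A := A) fun z => by simp [mul_assoc]

omit [StarOrderedRing A] in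
theorem norm_sm (a : A) (x : E) : ‖a • x‖ ≤ ‖a‖ * ‖x‖ := by
  refine (pow_le_pow_iff_left₀ (norm_nonneg _) (by positivity) two_ne_zero).1 ?_
  rw [norm_sq_eq A, inner_op_smul_right, inner_op_smul_left, mul_pow, norm_sq_eq A (x := x)]
  calc _ ≤ ‖a‖ * (‖⟪x, x⟫_A‖ * ‖star a‖) :=
        (norm_mul_le _ _).trans (by gcongr; exact norm_mul_le _ _)
    _ = _ := by rw [norm_star]; ring

theorem n1 (v : Sum A E) : ‖v.1‖ ≤ ‖v‖ := (le_max_left _ _).trans (max_le_prod_norm v)
theorem n2 (v : Sum A E) : ‖v.2‖ ≤ ‖v‖ := (le_max_right _ _).trans (max_le_prod_norm v)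

theorem pe {A E : Type} {v w : Sum A E} (h1 : v.1 = w.1) (h2 : v.2 = w.2) : v = w := Prod.ext h1 h2

variable (A) in
/-- lower left corner -/
noncomputable def T (x : E) : Op (Sum A E) := LinearMap.mkContinuous
  { toFun v := (equiv A _).symm (0, v.1 • x)
    map_add' v w := pe (by simp) (ext_inner (A := A) fun z => by simp [add_mul])
    map_smul' c v := pe (by simp) (ext_inner (A := A) fun z => by simp [smul_mul_assoc]) } ‖x‖ fun v =>
  (prod_norm_le_norm_add _).trans (by
    simpa [mul_comm] using (norm_sm v.1 x).trans (mul_le_mul_of_nonneg_right (n1 v) (norm_nonneg x)))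

variable (A) in
/-- upper right corner -/
noncomputable def S (x : E) : Op (Sum A E) := LinearMap.mkContinuous
  { toFun v := (equiv A _).symm (⟪x, v.2⟫_A, 0)
    map_add' v w := pe (by simp) (by simp)
    map_smul' c v := pe (by simp) (by simp) } ‖x‖ fun v =>
  (prod_norm_le_norm_add _).trans (by
    simpa using (norm_inner_le E).trans (by gcongr; exact n2 v))

theorem nT (x : E) : ‖T A x‖ ≤ ‖x‖ := by
  unfold T; exact LinearMap.mkContinuous_norm_le _ (norm_nonneg x) _
theorem nS (x : E) : ‖S A x‖ ≤ ‖x‖ := by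
  unfold S; exact LinearMap.mkContinuous_norm_le _ (norm_nonneg x) _

@[simp] theorem T1 (x : E) (v : Sum A E) : (T A x v).1 = 0 := rfl
@[simp] theorem T2 (x : E) (v : Sum A E) : (T A x v).2 = v.1 • x := rfl
@[simp] theorem S1 (x : E) (v : Sum A E) : (S A x v).1 = ⟪x, v.2⟫_A := rfl
@[simp] theorem S2 (x : E) (v : Sum A E) : (S A x v).2 = 0 := rfl
@[simp] theorem zs (x : E) : (0 : A) • x = 0 := ext_inner (A := A) fun z => by simp

theorem oe {k l : Op (Sum A E)} (h : ∀ v, (k v).1 = (l v).1 ∧ (k v).2 = (l v).2) : k = l :=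
  ContinuousLinearMap.ext fun v => pe (h v).1 (h v).2

theorem TT (x y : E) : T A x * T A y = 0 := oe fun v => by simp
theorem SS (x y : E) : S A x * S A y = 0 := oe fun v => by simp
theorem TST (x y z : E) : T A x * S A y * T A z = T A (⟪y, z⟫_A • x) := oe fun v => by
  simp [mul_sm]
theorem STS (x y z : E) : S A x * T A y * S A z = S A (⟪y, x⟫_A • z) := oe fun v => by simp

theorem decay {x : E} (hx : ‖x‖ ≤ 1) :
    Tendsto (fun n : ℕ => (fun y => y - ⟪x, x⟫_A • y)^[n] x) atTop (𝓝 0) := by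
  have a0 : 0 ≤ ⟪x, x⟫_A := inner_self_nonneg
  have a1 : ‖⟪x, x⟫_A‖ ≤ 1 := by rw [← norm_sq_eq]; exact pow_le_one₀ (norm_nonneg _) hx
  set a := ⟪x, x⟫_A with ha
  have sa : IsSelfAdjoint a := .of_nonneg a0
  have e : ∀ n : ℕ, ⟪(fun y => y - a • y)^[n] x, (fun y => y - a • y)^[n] x⟫_A =
      cfcₙ (fun t : ℝ => t * (1 - t) ^ (2 * n)) a := by
    intro n
    induction n with
    | zero => simp [← ha, cfcₙ_id' ℝ a]
    | succ n ih =>
      simp only [Function.iterate_succ_apply', CStarModule.inner_sub_left, CStarModule.inner_sub_right,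
        inner_op_smul_left,
        inner_op_smul_right, ih, sa.star_eq]
      have : ∀ f : ℝ → ℝ, Continuous f → f 0 = 0 → cfcₙ f a * a = cfcₙ (fun t => f t * t) a ∧
          a * cfcₙ f a = cfcₙ (fun t => t * f t) a := fun f h1 h2 => by
        rw [cfcₙ_mul f (fun t => t) a, cfcₙ_mul (fun t => t) f a, cfcₙ_id' ℝ a]; exact ⟨rfl, rfl⟩
      rw [mul_sub, (this _ (by fun_prop) (by simp)).1, (this _ (by fun_prop) (by simp)).2,
        (this _ (by fun_prop) (by simp)).2, ← cfcₙ_sub .., ← cfcₙ_sub .., ← cfcₙ_sub ..]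
      congr 1; ext t; ring
  refine tendsto_zero_iff_norm_tendsto_zero.2 ?_
  have := (Real.continuous_sqrt.tendsto 0).comp (tendsto_one_div_add_atTop_nhds_zero_nat (𝕜 := ℝ))
  rw [Real.sqrt_zero] at this
  refine squeeze_zero (fun _ => norm_nonneg _) (fun n => Real.le_sqrt_of_sq_le ?_) this
  rw [norm_sq_eq A, e]
  refine norm_cfcₙ_le fun t ht => ?_
  have t0 := quasispectrum_nonneg_of_nonneg a a0 t ht
  have t1 : t ≤ 1 := (le_abs_self t).trans
    ((NonUnitalIsometricContinuousFunctionalCalculus.norm_quasispectrum_le a ht sa).trans a1)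
  have b := one_add_mul_le_pow (show -2 ≤ t by linarith) n
  have c : ((1 - t) * (1 + t)) ^ n ≤ 1 := pow_le_one₀ (by nlinarith) (by nlinarith)
  have d : (1 - t) ^ n ≤ 1 := pow_le_one₀ (by linarith) (by linarith)
  have f : 0 ≤ (1 - t) ^ n := pow_nonneg (by linarith) _
  rw [mul_pow] at c
  rw [Real.norm_of_nonneg (mul_nonneg t0 (pow_nonneg (by linarith) _)), le_div_iff₀ (by positivity),
    two_mul, pow_add]
  have g : (1 - t) ^ n * (t * (n + 1)) ≤ 1 :=
    (mul_le_mul_of_nonneg_left (by linarith) f).trans c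
  nlinarith [mul_nonneg f (mul_nonneg t0 (show (0 : ℝ) ≤ n + 1 by positivity))]

theorem dens (F : Submodule ℂ E) (hF : ∀ x ∈ F, ∀ y ∈ F, ∀ z ∈ F, ⟪y, z⟫_A • x ∈ F)
    {X : Type} [NormedAddCommGroup X] [NormedSpace ℝ X] (N : Submodule ℝ X) (hN : IsClosed (N : Set X))
    (φ : E →L[ℝ] X) (h : ∀ x ∈ F, ∀ y ∈ F, φ (⟪y, y⟫_A • x) ∈ N) {x : E} (hx : x ∈ F) :
    φ x ∈ N := by
  wlog h1 : ‖x‖ ≤ 1 generalizing x
  · have p : 0 < ‖x‖ := by linarith
    have := N.smul_mem ‖x‖ (this (x := ‖x‖⁻¹ • x) (F.smul_of_tower_mem _ hx)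
      (by rw [norm_smul, norm_inv, norm_norm, inv_mul_cancel₀ p.ne']))
    rwa [← map_smul, smul_inv_smul₀ p.ne'] at this
  have : ∀ n : ℕ, (fun y => y - ⟪x, x⟫_A • y)^[n] x ∈ F ∧
      φ (x - (fun y => y - ⟪x, x⟫_A • y)^[n] x) ∈ N := by
    intro n
    induction n with
    | zero => simp [hx]
    | succ n ih =>
      rw [Function.iterate_succ_apply']
      exact ⟨sub_mem ih.1 (hF _ ih.1 x hx x hx), by
        rw [← sub_add, map_add]; exact add_mem ih.2 (h _ ih.1 x hx)⟩
  refine hN.mem_of_tendsto (b := atTop) ?_ (.of_forall fun n => (this n).2)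
  simpa [Function.comp_def] using (φ.continuous.tendsto _).comp ((decay (A := A) h1).const_sub x)

variable (A E) in
/-- the data -/
noncomputable def dat : Dat E (Op (Sum A E)) where
  T := LinearMap.mkContinuous
    { toFun := T A
      map_add' x y := oe fun v => ⟨by simp, ext_inner (A := A) fun z => by simp [mul_add]⟩
      map_smul' c x := oe fun v => ⟨by simp, ext_inner (A := A) fun z => by
        simp [mul_smul_comm]⟩ } 1 fun x => by
    rw [one_mul]; exact nT x
  S := LinearMap.mkContinuous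
    { toFun := S A
      map_add' x y := oe fun v => ⟨by simp, by simp⟩
      map_smul' c x := oe fun v => ⟨by simp, by simp⟩ } 1 fun x => by
    rw [one_mul]; exact nS x
  t x y z := ⟪y, z⟫_A • x
  TT := TT
  SS := SS
  TST := TST
  STS := STS

theorem gen_eq (F : Set E) : {k : Op (Sum A E) | Gen A F k} = (dat A E).G F := by
  ext k
  refine exists_congr fun x => and_congr_right fun _ => exists_congr fun y =>
    and_congr_right fun _ => or_congr ?_ (or_congr ?_ (or_congr ?_ ?_))
  · exact ⟨fun h => ContinuousLinearMap.ext fun v => h v, fun h v => h ▸ rfl⟩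
  · exact ⟨fun h => ContinuousLinearMap.ext fun v => h v, fun h v => h ▸ rfl⟩
  · exact ⟨fun h => ContinuousLinearMap.ext fun v => (h v).trans (pe inner_op_smul_right.symm rfl),
      fun h v => h ▸ pe inner_op_smul_right rfl⟩
  · exact ⟨fun h => ContinuousLinearMap.ext fun v => h v, fun h v => h ▸ rfl⟩

theorem link_eq (F : Set E) : Link A F = (dat A E).L F := by
  rw [Link, CSpan, gen_eq]; rfl

end Pool.Agent.H.MP_7e9539_an
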